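import Pool.Agent.P.MP_ec274c_lc.Defs

/-! Basic facts: colours as neighbour sums, niceness, existence of small proper labellings. -/

namespace Pool.Agent.P.MP_ec274c_lc

open Classical Finset

section
variable {V : Type} [Fintype V] (G : SimpleGraph V)

theorem sum_inc {M : Type} [AddCommMonoid M] (l : Sym2 V → M) (v : V) :
    ∑ e ∈ G.edgeFinset with v ∈ e, l e = ∑ w with G.Adj v w, l s(v, w) := by
  symm
  refine Finset.sum_bij (fun w _ => s(v, w)) ?_ ?_ ?_ ?_
  · intro w hw
    simpa using hw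
  · intro a _ b _ h
    simpa using Sym2.congr_right.1 h
  · intro e he
    simp only [mem_filter, SimpleGraph.mem_edgeFinset] at he
    obtain ⟨w, rfl⟩ := Sym2.mem_iff_exists.1 he.2
    exact ⟨w, by simpa using he.1, rfl⟩
  · intro _ _; rfl

theorem colour_eq (l : Sym2 V → ℕ) (v : V) :
    colour G l v = ∑ w with G.Adj v w, l s(v, w) := sum_inc G l v

theorem sum_colour (l : Sym2 V → ℕ) : ∑ v, colour G l v = 2 * ∑ e ∈ G.edgeFinset, l e := by
  unfold colour
  simp only [Finset.sum_filter]
  rw [Finset.sum_comm, Finset.mul_sum]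
  refine Finset.sum_congr rfl fun e he => ?_
  rw [← Finset.sum_filter, Finset.sum_const, smul_eq_mul]
  congr 1
  induction e using Sym2.ind with
  | _ a b =>
    have hab : a ≠ b := (by simpa using he : G.Adj a b).ne
    rw [show (univ.filter fun v => v ∈ s(a, b)) = {a, b} by ext; simp, Finset.card_pair hab]

omit [Fintype V] in
theorem nice_iff : Nice G ↔
    ∀ u v, G.Adj u v → ∃ w, (G.Adj u w ∧ w ≠ v) ∨ (G.Adj v w ∧ w ≠ u) := by
  constructor
  · intro h u v huv
    by_contra hc
    push Not at hc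
    have key : ∀ a b, G.Reachable a b → (a = u ∨ a = v) → (b = u ∨ b = v) := by
      rintro a b ⟨p⟩
      induction p with
      | nil => exact id
      | cons hadj p ih =>
        rintro (rfl | rfl)
        · exact ih (Or.inr ((hc _).1 hadj))
        · exact ih (Or.inl ((hc _).2 hadj))
    let C := G.connectedComponentMk u
    have hu : u ∈ C := rfl
    have hv : v ∈ C := SimpleGraph.ConnectedComponent.sound huv.symm.reachable
    have hall : ∀ x : C, x = ⟨u, hu⟩ ∨ x = ⟨v, hv⟩ := by
      rintro ⟨x, hx⟩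
      have := key u x (SimpleGraph.ConnectedComponent.exact hx).symm (Or.inl rfl)
      simpa using this
    have hne : (⟨v, hv⟩ : C) ≠ ⟨u, hu⟩ := by simpa using huv.ne.symm
    refine (h C).elim ⟨⟨fun x => if x = ⟨u, hu⟩ then 0 else 1,
      fun i => if i = 0 then ⟨u, hu⟩ else ⟨v, hv⟩, ?_, ?_⟩, ?_⟩
    · intro x
      rcases hall x with rfl | rfl <;> simp [hne]
    · intro i
      fin_cases i <;> simp [hne]
    · intro a b
      rcases hall a with rfl | rfl <;> rcases hall b with rfl | rfl <;>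
        simp [hne, SimpleGraph.ConnectedComponent.toSimpleGraph, huv, huv.symm]
  · intro h C
    refine ⟨fun e => ?_⟩
    have hadj : C.toSimpleGraph.Adj (e.symm 0) (e.symm 1) := e.symm.map_rel_iff.2 (by simp)
    have hadj' : G.Adj (e.symm 0).1 (e.symm 1).1 := hadj
    obtain ⟨w, hw⟩ := h _ _ hadj'
    have hwC : w ∈ C := by
      rcases hw with hw | hw
      · exact (SimpleGraph.ConnectedComponent.sound hw.1.symm.reachable).trans (e.symm 0).2
      · exact (SimpleGraph.ConnectedComponent.sound hw.1.symm.reachable).trans (e.symm 1).2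
    have h2 : ∀ i : Fin 2, i = 0 ∨ i = 1 := by decide
    have h3 : w = (e.symm 0).1 ∨ w = (e.symm 1).1 := by
      rcases h2 (e ⟨w, hwC⟩) with h4 | h4 <;> [left; right] <;> rw [← h4] <;> simp
    rcases hw with hw | hw <;> rcases h3 with h3 | h3
    · exact hw.1.ne h3.symm
    · exact hw.2 h3
    · exact hw.2 h3
    · exact hw.1.ne h3.symm

theorem IsProper.nice {G : SimpleGraph V} {l : Sym2 V → ℕ} (h : IsProper G l) : Nice G := by
  rw [nice_iff]
  intro u v huv
  by_contra hc
  push Not at hc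
  apply h.2 u v huv
  rw [colour_eq, colour_eq, Finset.sum_eq_single v, Finset.sum_eq_single u, Sym2.eq_swap]
  · intro b hb hne; exact absurd ((hc b).2 (by simpa using hb)) hne
  · intro hb; exact absurd (by simpa using huv.symm) hb
  · intro b hb hne; exact absurd ((hc b).1 (by simpa using hb)) hne
  · intro hb; exact absurd (by simpa using huv) hb

open MvPolynomial in
theorem exists_proper (h : Nice G) :
    ∃ l, IsProper G l ∧ ∀ e, l e ≤ Fintype.card V ^ 2 + 1 := by
  rw [nice_iff] at h
  let c : V → MvPolynomial (Sym2 V) ℤ := fun v => ∑ w with G.Adj v w, X s(v, w)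
  let D : Finset (V × V) := univ.filter fun p => G.Adj p.1 p.2
  let P : MvPolynomial (Sym2 V) ℤ := ∏ p ∈ D, (c p.1 - c p.2)
  have hP : P ≠ 0 := by
    refine Finset.prod_ne_zero_iff.2 fun p hp h0 => ?_
    have hp' : G.Adj p.1 p.2 := by simpa [D] using hp
    have key : ∀ u v w, G.Adj u v → G.Adj u w → w ≠ v → c u ≠ c v := by
      intro u v w huv huw hwv hc
      have := congrArg (eval fun e => if e = s(u, w) then (1 : ℤ) else 0) hc
      simp only [c, map_sum, eval_X] at this
      rw [Finset.sum_eq_single w, Finset.sum_eq_zero] at this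
      · simp at this
      · intro x hx
        rw [if_neg]
        intro h1
        rcases Sym2.eq_iff.1 h1 with h1 | h1
        · exact huv.ne h1.1.symm
        · exact hwv h1.1.symm
      · intro b _ hb
        rw [if_neg]
        intro h1
        exact hb (Sym2.congr_right.1 h1)
      · intro hb; exact absurd (by simpa using huw) hb
    obtain ⟨w, hw | hw⟩ := h _ _ hp'
    · exact key _ _ _ hp' hw.1 hw.2 (sub_eq_zero.1 h0)
    · exact key _ _ _ hp'.symm hw.1 hw.2 (sub_eq_zero.1 h0).symm
  have hc1 : ∀ v, (c v).totalDegree ≤ 1 := fun v =>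
    totalDegree_finsetSum_le fun w _ => by simp
  have hdeg : P.totalDegree ≤ Fintype.card V ^ 2 := by
    refine (totalDegree_finsetProd _ _).trans ?_
    refine (Finset.sum_le_card_nsmul _ _ 1 fun p _ =>
      (totalDegree_sub _ _).trans (max_le (hc1 _) (hc1 _))).trans ?_
    have := Finset.card_le_univ D
    simpa [sq] using this
  by_contra hno
  apply hP
  refine eq_zero_of_eval_zero_at_prod_finset P
    (fun _ => (Finset.Icc 1 (Fintype.card V ^ 2 + 1)).image (Nat.cast : ℕ → ℤ)) (fun i => ?_) ?_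
  · rw [Finset.card_image_of_injective _ Nat.cast_injective]
    have := (degreeOf_le_totalDegree P i).trans hdeg
    simp; omega
  · intro x hx
    simp only [Finset.mem_image, Finset.mem_Icc] at hx
    choose l hl hl' using hx
    by_contra hne
    apply hno
    refine ⟨l, ⟨fun e _ => (hl e).1, fun u v huv hcol => hne ?_⟩, fun e => (hl e).2⟩
    simp only [P, map_prod]
    refine Finset.prod_eq_zero (i := (u, v)) (by simpa [D] using huv) ?_
    rw [colour_eq, colour_eq] at hcol
    have := congrArg (Nat.cast : ℕ → ℤ) hcol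
    simp only [c, map_sub, map_sum, eval_X, ← hl']
    push_cast at this
    rw [this, sub_self]

theorem mE_le_iff (q : ℕ) :
    Nice G ∧ mE G ≤ q ↔ ∃ l, IsProper G l ∧ ∑ e ∈ G.edgeFinset, l e ≤ q := by
  constructor
  · rintro ⟨h, hq⟩
    obtain ⟨l, hl, -⟩ := exists_proper G h
    obtain ⟨l', h1, h2⟩ := Nat.sInf_mem
      (s := {s | ∃ l, IsProper G l ∧ s = ∑ e ∈ G.edgeFinset, l e}) ⟨_, l, hl, rfl⟩
    exact ⟨l', h1, h2 ▸ hq⟩
  · rintro ⟨l, hl, hq⟩
    exact ⟨hl.nice, (Nat.sInf_le
      (s := {s | ∃ l, IsProper G l ∧ s = ∑ e ∈ G.edgeFinset, l e}) ⟨l, hl, rfl⟩).trans hq⟩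

theorem mE_le_bound (h : Nice G) : mE G ≤ (Fintype.card V + 1) ^ 4 := by
  obtain ⟨l, hl, hb⟩ := exists_proper G h
  refine ((mE_le_iff G _).2 ⟨l, hl, ?_⟩).2
  refine (Finset.sum_le_card_nsmul _ _ _ fun e _ => hb e).trans ?_
  have h1 := G.card_edgeFinset_le_card_choose_two
  have h2 : (Fintype.card V).choose 2 ≤ Fintype.card V ^ 2 := Nat.choose_le_pow _ _
  rw [smul_eq_mul]
  generalize Fintype.card V = n at *
  calc _ ≤ n ^ 2 * (n ^ 2 + 1) := Nat.mul_le_mul_right _ (h1.trans h2)
    _ ≤ (n + 1) ^ 2 * (n + 1) ^ 2 := by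
      have : (n + 1) ^ 2 = n ^ 2 + 2 * n + 1 := by ring
      exact Nat.mul_le_mul (by omega) (by omega)
    _ = _ := by ring

omit [Fintype V] in
theorem exists_leaf [Finite V] (h : G.IsAcyclic) {a b : V} (hab : G.Adj a b) :
    ∃ u v, G.Adj u v ∧ ∀ w, G.Adj u w → w = v := by
  have : Nonempty V := ⟨a⟩
  have ⟨u, v, p, hp, hmax⟩ := SimpleGraph.Walk.exists_isPath_forall_isPath_length_le_length G
  have hnil : ¬p.Nil := by
    intro hn
    have := hmax a b (SimpleGraph.Path.singleton hab).1 (SimpleGraph.Path.singleton hab).2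
    rw [← SimpleGraph.Walk.length_eq_zero_iff] at hn
    simp [SimpleGraph.Path.singleton, hn] at this
  refine ⟨u, _, p.adj_snd hnil, fun w hadj => ?_⟩
  apply h.eq_snd_of_adj_start hp hadj
  have : ¬(p.cons hadj.symm).IsPath := by
    intro h1
    have := hmax _ _ _ h1
    simp at this
  by_contra h2
  exact this (hp.cons h2)

end

/-! ### A version on a finite set of vertices with Boolean adjacency -/

section
variable {α : Type}

/-- Colour of `u` inside the vertex set `S`. -/
noncomputable def col (S : Finset α) (ad : α → α → Bool) (f : α → α → ℕ) (u : α) : ℕ :=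
  ∑ v ∈ S with ad u v = true, f u v

/-- There is a proper labelling with label sum at most `q`. -/
def Lab (S : Finset α) (ad : α → α → Bool) (q : ℕ) : Prop :=
  ∃ f : α → α → ℕ, (∀ u ∈ S, ∀ v ∈ S, ad u v = true →
    1 ≤ f u v ∧ f u v = f v u ∧ col S ad f u ≠ col S ad f v) ∧ ∑ u ∈ S, col S ad f u ≤ 2 * q

theorem lab_iff {V : Type} [Fintype V] (G : SimpleGraph V) (S : Finset α) (ad : α → α → Bool)
    (φ : V → α) (hφ : Function.Injective φ) (hS : ∀ a, a ∈ S ↔ ∃ v, φ v = a)
    (had : ∀ u v, G.Adj u v ↔ ad (φ u) (φ v) = true) (q : ℕ) :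
    Nice G ∧ mE G ≤ q ↔ Lab S ad q := by
  have hS' : S = univ.image φ := by ext a; simp [hS]
  have hsum : ∀ g : α → ℕ, ∑ a ∈ S, g a = ∑ v, g (φ v) := fun g => by
    rw [hS', Finset.sum_image fun _ _ _ _ h => hφ h]
  have hcol : ∀ (f : α → α → ℕ) (l : Sym2 V → ℕ), (∀ u v, G.Adj u v → f (φ u) (φ v) = l s(u, v)) →
      ∀ u, col S ad f (φ u) = colour G l u := by
    intro f l h u
    rw [colour_eq, col, Finset.sum_filter, Finset.sum_filter, hsum]
    refine Finset.sum_congr rfl fun v _ => ?_
    by_cases huv : G.Adj u v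
    · rw [if_pos huv, if_pos ((had _ _).1 huv), h _ _ huv]
    · rw [if_neg huv, if_neg (fun h => huv ((had _ _).2 h))]
  rw [mE_le_iff]
  constructor
  · rintro ⟨l, hl, hq⟩
    let f : α → α → ℕ := fun a b => Function.extend (Sym2.map φ) l (fun _ => 0) s(a, b)
    have hf : ∀ u v, f (φ u) (φ v) = l s(u, v) := fun u v =>
      (Sym2.map.injective hφ).extend_apply l _ s(u, v)
    have hc := hcol f l fun u v _ => hf u v
    refine ⟨f, fun a ha b hb hab => ?_, ?_⟩
    · obtain ⟨u, rfl⟩ := (hS _).1 ha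
      obtain ⟨v, rfl⟩ := (hS _).1 hb
      have huv := (had _ _).2 hab
      rw [hf, hf, hc, hc]
      exact ⟨hl.1 _ huv, by rw [Sym2.eq_swap], hl.2 _ _ huv⟩
    · rw [hsum]
      simp only [hc]
      rw [sum_colour]; omega
  · rintro ⟨f, hf, hq⟩
    have hf' := fun u v (h : G.Adj u v) =>
      hf _ ((hS _).2 ⟨u, rfl⟩) _ ((hS _).2 ⟨v, rfl⟩) ((had _ _).1 h)
    let l : Sym2 V → ℕ := Sym2.lift ⟨fun u v => if G.Adj u v then f (φ u) (φ v) else 0,
      fun u v => by
        beta_reduce
        by_cases h : G.Adj u v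
        · rw [if_pos h, if_pos h.symm, (hf' _ _ h).2.1]
        · rw [if_neg h, if_neg fun h' => h h'.symm]⟩
    have hl : ∀ u v, G.Adj u v → f (φ u) (φ v) = l s(u, v) := fun u v h => by simp [l, h]
    have hc := hcol f l hl
    refine ⟨l, ⟨fun e he => ?_, fun u v h => ?_⟩, ?_⟩
    · induction e using Sym2.ind with
      | _ u v => rw [← hl _ _ he]; exact (hf' _ _ he).1
    · rw [← hc, ← hc]; exact (hf' _ _ h).2.2
    · rw [hsum] at hq
      simp only [hc] at hq
      rw [sum_colour] at hq; omega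

theorem Lab.mono {S : Finset α} {ad : α → α → Bool} {q q' : ℕ} (h : Lab S ad q) (hq : q ≤ q') :
    Lab S ad q' := by
  obtain ⟨f, h1, h2⟩ := h
  exact ⟨f, h1, by omega⟩

end

end Pool.Agent.P.MP_ec274c_lc
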