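import Pool.Agent.P.MP_ec274c_lc.Basic

/-! Counting lemmas for labellings whose sum exceeds the number of edges by a small budget. -/

namespace Pool.Agent.P.MP_ec274c_lc

open Finset Classical

variable {α : Type} {S : Finset α} {ad : α → α → Bool}

/-- Degree inside `S`. -/
def deg (S : Finset α) (ad : α → α → Bool) (u : α) : ℕ := #{v ∈ S | ad u v = true}

theorem sum_card_filter (S : Finset α) (P : α → α → Prop) :
    ∑ u ∈ S, #{v ∈ S | P u v} = #{d ∈ S ×ˢ S | P d.1 d.2} := by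
  simp only [Finset.card_filter]
  rw [Finset.sum_product]

theorem even_sum_deg (hs : ∀ a b, ad a b = true → ad b a = true) (hi : ∀ a, ¬ ad a a = true) :
    2 ∣ ∑ u ∈ S, deg S ad u := by
  have e : ∑ u ∈ S, deg S ad u = #{d ∈ S ×ˢ S | ad d.1 d.2 = true} := by
    unfold deg
    convert sum_card_filter S (fun u v => ad u v = true)
  rw [e, ← ZMod.natCast_eq_zero_iff, Finset.card_eq_sum_ones, Nat.cast_sum]
  refine Finset.sum_involution (fun d _ => d.swap) (fun _ _ => by decide) ?_ ?_ (fun _ _ => rfl)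
  · rintro ⟨a, b⟩ h - h'
    simp only [Prod.swap_prod_mk, Prod.mk.injEq] at h'
    obtain ⟨rfl, -⟩ := h'
    exact hi _ (mem_filter.1 h).2
  · rintro ⟨a, b⟩ h
    simp only [mem_filter, mem_product, Prod.swap_prod_mk] at h ⊢
    exact ⟨⟨h.1.2, h.1.1⟩, hs _ _ h.2⟩

theorem lab_of_matching (U : Finset α) (μ : α → α)
    (hU : ∀ u ∈ U, μ u ∈ U ∧ μ (μ u) = u ∧ u ∈ S ∧ ad u (μ u) = true)
    (hp : ∀ u ∈ S, ∀ v ∈ S, ad u v = true →
      deg S ad u + (if u ∈ U then 1 else 0) ≠ deg S ad v + (if v ∈ U then 1 else 0))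
    {q : ℕ} (hq : ∑ u ∈ S, deg S ad u + #U ≤ 2 * q) : Lab S ad q := by
  let f : α → α → ℕ := fun u v => 1 + if u ∈ U ∧ v = μ u then 1 else 0
  have hc : ∀ u, col S ad f u = deg S ad u + (if u ∈ U then 1 else 0) := by
    intro u
    rw [col, Finset.sum_add_distrib, deg, Finset.card_eq_sum_ones]
    congr 1
    by_cases h : u ∈ U
    · have h1 := hU u h
      have h2 := (hU _ h1.1).2.2.1
      simp [h, h1, h2]
    · simp [h]
  refine ⟨f, fun u hu v hv h => ⟨by simp [f], ?_, ?_⟩, ?_⟩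
  · have : (u ∈ U ∧ v = μ u) ↔ (v ∈ U ∧ u = μ v) := by
      constructor <;> rintro ⟨h1, rfl⟩ <;> exact ⟨(hU _ h1).1, (hU _ h1).2.1.symm⟩
    simp only [f, this]
  · rw [hc, hc]; exact hp u hu v hv h
  · simp only [hc]
    rw [Finset.sum_add_distrib, ← Finset.card_filter]
    have : #{u ∈ S | u ∈ U} ≤ #U := Finset.card_le_card fun u hu => (mem_filter.1 hu).2
    omega

theorem budget (hs : ∀ a b, ad a b = true → ad b a = true) {f : α → α → ℕ}
    (hf : ∀ u ∈ S, ∀ v ∈ S, ad u v = true → 1 ≤ f u v ∧ f u v = f v u) (T : Finset (α × α))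
    (hT : ∀ d ∈ T, d.1 ∈ S ∧ d.2 ∈ S ∧ ad d.1 d.2 = true ∧ 2 ≤ f d.1 d.2 ∧ d.swap ∉ T)
    (hsum : ∑ u ∈ S, col S ad f u ≤ ∑ u ∈ S, deg S ad u + 2 * #T) :
    ∀ u ∈ S, col S ad f u =
      deg S ad u + #{v ∈ S | ad u v = true ∧ ((u, v) ∈ T ∨ (v, u) ∈ T)} := by
  have h1 : ∀ u ∈ S, deg S ad u + #{v ∈ S | ad u v = true ∧ ((u, v) ∈ T ∨ (v, u) ∈ T)} ≤
      col S ad f u := by
    intro u hu
    rw [deg, col, Finset.card_filter, Finset.card_filter, Finset.sum_filter,
      ← Finset.sum_add_distrib]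
    refine Finset.sum_le_sum fun v hv => ?_
    by_cases h : ad u v = true
    · have a1 := hf u hu v hv h
      by_cases h' : (u, v) ∈ T ∨ (v, u) ∈ T
      · have : 2 ≤ f u v := by
          rcases h' with h' | h'
          · exact (hT _ h').2.2.2.1
          · rw [a1.2]; exact (hT _ h').2.2.2.1
        simp only [h, h', if_true, and_self]; omega
      · simp only [h, h', if_true, and_false, if_false]; omega
    · simp [h]
  have h2 : 2 * #T ≤ ∑ u ∈ S, #{v ∈ S | ad u v = true ∧ ((u, v) ∈ T ∨ (v, u) ∈ T)} := by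
    have e := sum_card_filter S (fun u v => ad u v = true ∧ ((u, v) ∈ T ∨ (v, u) ∈ T))
    have hd : Disjoint T (T.image Prod.swap) := by
      rw [Finset.disjoint_left]
      intro d hd hd'
      obtain ⟨d', h', rfl⟩ := mem_image.1 hd'
      exact (hT _ h').2.2.2.2 hd
    have hc : #(T ∪ T.image Prod.swap) = 2 * #T := by
      rw [Finset.card_union_of_disjoint hd, Finset.card_image_of_injective _ Prod.swap_injective]
      omega
    rw [← hc]
    refine le_trans (Finset.card_le_card fun d hd => ?_) (le_of_eq (by convert e.symm))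
    simp only [mem_filter, mem_product]
    rcases mem_union.1 hd with h | h
    · have := hT _ h
      exact ⟨⟨this.1, this.2.1⟩, this.2.2.1, Or.inl h⟩
    · obtain ⟨d', h', rfl⟩ := mem_image.1 h
      have := hT _ h'
      exact ⟨⟨this.2.1, this.1⟩, hs _ _ this.2.2.1, Or.inr h'⟩
  have h3 := (Finset.sum_eq_sum_iff_of_le h1).1 (le_antisymm (Finset.sum_le_sum h1) (by
    rw [Finset.sum_add_distrib]; omega))
  exact fun u hu => (h3 u hu).symm

end Pool.Agent.P.MP_ec274c_lc
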