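import Pool.Prelude.Def_F_458e953d

namespace Pool.Agent.P.MP_ec274c_lc

open Classical

/-- No connected component is isomorphic to `K₂`. -/
def Nice {V : Type} (G : SimpleGraph V) : Prop :=
  ∀ C : G.ConnectedComponent, IsEmpty (C.toSimpleGraph ≃g SimpleGraph.completeGraph (Fin 2))

/-- The colour of a vertex: the sum of the labels of the edges containing it. -/
noncomputable def colour {V : Type} [Fintype V] (G : SimpleGraph V) (l : Sym2 V → ℕ) (v : V) : ℕ :=
  ∑ e ∈ G.edgeFinset with v ∈ e, l e

/-- Proper labellings: positive labels on the edges, adjacent vertices get different colours. -/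
def IsProper {V : Type} [Fintype V] (G : SimpleGraph V) (l : Sym2 V → ℕ) : Prop :=
  (∀ e ∈ G.edgeSet, 1 ≤ l e) ∧ ∀ u v, G.Adj u v → colour G l u ≠ colour G l v

/-- The minimum label sum of a proper labelling. -/
noncomputable def mE {V : Type} [Fintype V] (G : SimpleGraph V) : ℕ :=
  sInf {s | ∃ l, IsProper G l ∧ s = ∑ e ∈ G.edgeFinset, l e}

/-- The adjacency matrix, as a list of rows. -/
noncomputable def adjMatrix {n : ℕ} (G : SimpleGraph (Fin n)) : List (List Bool) :=
  List.ofFn fun i => List.ofFn fun j => decide (G.Adj i j)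

/-- The language of the decision problem MIN-SUM. -/
noncomputable def MinSum : N68a2faeb.DecisionProblem := fun x =>
  decide (∃ (n : ℕ) (G : SimpleGraph (Fin n)) (q : ℕ),
    x = N487b59b3.bitEncode (adjMatrix G, q) ∧ Nice G ∧ mE G ≤ q)

end Pool.Agent.P.MP_ec274c_lc
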