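import Pool.Agent.P.MP_ec274c_lc.Budget

/-! The graph of the reduction from satisfiability, and its correctness. -/

namespace Pool.Agent.P.MP_ec274c_lc

open Finset

abbrev Lit := Bool × ℕ

/-- Vertices: a role, a literal and a clause slot. -/
abbrev Vx := ℕ × Lit × Lit

def relB (φ : List (List Lit)) (u v : Vx) : Bool :=
  (u.1 == 0 && v.1 == 0 && u.2.2 == (false, 0) && v.2.2 == (false, 0) &&
    v.2.1 == (!u.2.1.1, u.2.1.2)) ||
  (u.1 == 1 && v.1 == 1 && u.2.1 == (false, 0) && v.2.1 == (false, 0) &&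
    v.2.2 == (!u.2.2.1, u.2.2.2) && decide (u.2.2.2 < φ.length)) ||
  (u.1 == 0 && v.1 == 2 && u.2.2 == (false, 0) && v.2.1 == u.2.1) ||
  (u.1 == 1 && v.1 == 2 && u.2.1 == (false, 0) && v.2.2 == u.2.2 &&
    decide (v.2.1 ∈ φ.getD u.2.2.2 [])) ||
  (u.1 == 2 && decide (3 ≤ v.1) && v.2 == u.2)

def adB (φ : List (List Lit)) (u v : Vx) : Bool := relB φ u v || relB φ v u

theorem adB_symm (φ : List (List Lit)) (u v : Vx) (h : adB φ u v = true) : adB φ v u = true := by
  rwa [adB, Bool.or_comm]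

theorem adB_irrefl (φ : List (List Lit)) (u : Vx) : ¬ adB φ u u = true := by
  rcases u with ⟨r, ⟨b, x⟩, ⟨s, j⟩⟩
  simp [adB, relB]
  omega

/-- Literals or slots below a bound. -/
def lits (n : ℕ) : Finset Lit := univ ×ˢ range n

theorem mem_lits {n : ℕ} {l : Lit} : l ∈ lits n ↔ l.2 < n := by simp [lits]

theorem card_lits (n : ℕ) : #(lits n) = 2 * n := by simp [lits]

section
variable {φ : List (List Lit)} {n M : ℕ} {S : Finset Vx}
  (hS : ∀ v, v ∈ S ↔ v.1 < 2 * M + 1 ∧ v.2.1.2 < n ∧ v.2.2.2 < M)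
  (hn : 0 < n) (hM : φ.length + n + 3 ≤ M)

include hS hn hM

theorem nbr_W {l : Lit} (hl : l.2 < n) : {v ∈ S | adB φ (0, l, (false, 0)) v = true} =
    insert (0, (!l.1, l.2), (false, 0)) ((lits M).image fun z => (2, l, z)) := by
  ext ⟨r, ⟨b, x⟩, ⟨s, j⟩⟩
  rcases l with ⟨c, y⟩
  simp only [mem_filter, hS, adB, relB, mem_insert, mem_image, mem_lits, Prod.exists]
  cases b <;> cases c <;> cases s <;> simp <;> omega

theorem nbr_Z {z : Lit} (hz : z.2 < φ.length) : {v ∈ S | adB φ (1, (false, 0), z) v = true} =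
    insert (1, (false, 0), (!z.1, z.2))
      ({l ∈ lits n | l ∈ φ.getD z.2 []}.image fun l => (2, l, z)) := by
  ext ⟨r, ⟨b, x⟩, ⟨s, j⟩⟩
  rcases z with ⟨c, y⟩
  simp only [mem_filter, hS, adB, relB, mem_insert, mem_image, mem_lits, Prod.exists] at hz ⊢
  generalize φ.getD y [] = C
  generalize φ.getD j [] = C'
  cases b <;> cases c <;> cases s <;> simp <;> grind

theorem nbr_P {l z : Lit} (hl : l.2 < n) (hz : z.2 < M) :
    {v ∈ S | adB φ (2, l, z) v = true} =
    insert (0, l, (false, 0)) ((if l ∈ φ.getD z.2 [] then {(1, (false, 0), z)} else ∅) ∪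
      (Ico 3 (2 * M + 1)).image fun r => (r, l, z)) := by
  ext ⟨r, ⟨b, x⟩, ⟨s, j⟩⟩
  rcases z with ⟨c, y⟩
  rcases l with ⟨d, w⟩
  simp only [mem_filter, hS, adB, relB, mem_insert, mem_image, mem_union, mem_Ico] at hl hz ⊢
  split_ifs with h <;> simp at h ⊢ <;> grind

theorem nbr_L {r : ℕ} {l z : Lit} (hr : 3 ≤ r) (hl : l.2 < n) (hz : z.2 < M) :
    {v ∈ S | adB φ (r, l, z) v = true} = {(2, l, z)} := by
  ext ⟨r', ⟨b, x⟩, ⟨s, j⟩⟩
  rcases z with ⟨c, y⟩
  rcases l with ⟨d, w⟩
  simp only [mem_filter, hS, adB, relB, mem_singleton] at hl hz ⊢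
  simp
  grind

theorem deg_W {l : Lit} (hl : l.2 < n) : deg S (adB φ) (0, l, (false, 0)) = 2 * M + 1 := by
  rw [deg, nbr_W hS hn hM hl, card_insert_of_notMem (by simp),
    card_image_of_injective _ (fun a b h => by simpa using h), card_lits]

theorem deg_Z {z : Lit} (hz : z.2 < φ.length) :
    deg S (adB φ) (1, (false, 0), z) = #{l ∈ lits n | l ∈ φ.getD z.2 []} + 1 := by
  rw [deg, nbr_Z hS hn hM hz, card_insert_of_notMem (by simp),
    card_image_of_injective _ (fun a b h => by simpa using h)]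

theorem deg_P {l z : Lit} (hl : l.2 < n) (hz : z.2 < M) :
    deg S (adB φ) (2, l, z) = 2 * M - 1 + if l ∈ φ.getD z.2 [] then 1 else 0 := by
  rw [deg, nbr_P hS hn hM hl hz, card_insert_of_notMem (by split_ifs <;> simp),
    card_union_of_disjoint (by split_ifs <;> simp),
    card_image_of_injective _ (fun a b h => by simpa using h), Nat.card_Ico]
  split_ifs <;> simp <;> omega

theorem deg_L {r : ℕ} {l z : Lit} (hr : 3 ≤ r) (hl : l.2 < n) (hz : z.2 < M) :
    deg S (adB φ) (r, l, z) = 1 := by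
  rw [deg, nbr_L hS hn hM hr hl hz, card_singleton]

theorem gadget_complete (τ : ℕ → Bool) (lit : ℕ → Lit)
    (hlit : ∀ j < φ.length, lit j ∈ φ.getD j [] ∧ (lit j).2 < n ∧ τ (lit j).2 = (lit j).1)
    {q : ℕ} (hq : ∑ u ∈ S, deg S (adB φ) u + 2 * (n + φ.length) ≤ 2 * q) : Lab S (adB φ) q := by
  let U : Finset Vx := ((range n).image fun x => (0, (τ x, x), (false, 0))) ∪
    ((range n).image fun x => (2, (τ x, x), (true, 0))) ∪
    ((range φ.length).image fun j => (1, (false, 0), (false, j))) ∪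
    ((range φ.length).image fun j => (2, lit j, (false, j)))
  let μ : Vx → Vx := fun u => if u.1 = 0 then (2, u.2.1, (true, 0))
    else if u.1 = 1 then (2, lit u.2.2.2, u.2.2)
    else if u.2.2.1 then (0, u.2.1, (false, 0)) else (1, (false, 0), u.2.2)
  have hU : ∀ u, u ∈ U ↔ (∃ x < n, u = (0, (τ x, x), (false, 0))) ∨
      (∃ x < n, u = (2, (τ x, x), (true, 0))) ∨
      (∃ j < φ.length, u = (1, (false, 0), (false, j))) ∨
      (∃ j < φ.length, u = (2, lit j, (false, j))) := by
    intro u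
    simp only [U, mem_union, mem_image, mem_range, or_assoc, eq_comm (a := u)]
  have hW : ∀ l : Lit, l.2 < n → ((0, l, (false, 0)) ∈ U ↔ τ l.2 = l.1) := by
    rintro ⟨b, x⟩ h
    simp only [hU, Prod.mk.injEq]
    grind
  have hZ : ∀ z : Lit, z.2 < φ.length → ((1, (false, 0), z) ∈ U ↔ z.1 = false) := by
    rintro ⟨b, x⟩ h
    simp only [hU, Prod.mk.injEq]
    grind
  have hP : ∀ l z : Lit, (2, l, z) ∈ U → τ l.2 = l.1 := by
    rintro ⟨b, x⟩ z
    simp only [hU, Prod.mk.injEq]
    grind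
  have hL : ∀ (r : ℕ) (l z : Lit), 3 ≤ r → (r, l, z) ∉ U := by
    rintro r l z h
    simp only [hU, Prod.mk.injEq]
    grind
  have hk : ∀ j, #{l ∈ lits n | l ∈ φ.getD j []} ≤ 2 * n := fun j =>
    (card_filter_le _ _).trans (card_lits n).le
  have key : ∀ u ∈ S, ∀ v ∈ S, relB φ u v = true →
      deg S (adB φ) u + (if u ∈ U then 1 else 0) ≠ deg S (adB φ) v + (if v ∈ U then 1 else 0) := by
    rintro ⟨r, l, z⟩ hu ⟨r', l', z'⟩ hv h
    rw [hS] at hu hv
    simp only [relB, Bool.or_eq_true, Bool.and_eq_true, beq_iff_eq, decide_eq_true_eq,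
      and_assoc, or_assoc, Prod.mk.injEq] at h hu hv
    rcases h with ⟨rfl, rfl, rfl, rfl, rfl⟩ | ⟨rfl, rfl, rfl, rfl, rfl, h⟩ | ⟨rfl, rfl, rfl, rfl⟩ |
      ⟨rfl, rfl, rfl, rfl, h⟩ | ⟨rfl, h, rfl, rfl⟩
    · rw [deg_W hS hn hM hu.2.1, deg_W hS hn hM hv.2.1]
      simp only [hW _ hu.2.1, hW _ hv.2.1]
      cases τ l.2 <;> cases l.1 <;> simp
    · rw [deg_Z hS hn hM h, deg_Z hS hn hM (z := (!z.1, z.2)) h]
      simp only [hZ _ h, hZ (!z.1, z.2) h]
      cases z.1 <;> simp
    · rw [deg_W hS hn hM hu.2.1, deg_P hS hn hM hv.2.1 hv.2.2]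
      simp only [hW _ hu.2.1]
      have := hP l' z'
      split_ifs <;> first | omega | tauto
    · have h' : z'.2 < φ.length := by
        by_contra hc
        simp [hc] at h
      rw [deg_Z hS hn hM h', deg_P hS hn hM hv.2.1 hv.2.2]
      have := hk z'.2
      split_ifs <;> omega
    · rw [deg_L hS hn hM h hv.2.1 hv.2.2, deg_P hS hn hM hv.2.1 hv.2.2, if_neg (hL _ _ _ h)]
      split_ifs <;> omega
  refine lab_of_matching U μ (fun u hu => ?_) (fun u hu v hv h => ?_) ?_
  · simp only [hU, hS] at hu ⊢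
    rcases hu with ⟨x, h, rfl⟩ | ⟨x, h, rfl⟩ | ⟨x, h, rfl⟩ | ⟨x, h, rfl⟩
    · simp [μ, adB, relB, h]; omega
    · simp [μ, adB, relB, h]; omega
    · have := hlit x h
      simp [h] at this
      simp [μ, adB, relB, h, this, hn] ; omega
    · have := hlit x h
      simp [h] at this
      simp [μ, adB, relB, h, this]; omega
  · rcases Bool.or_eq_true_iff.1 h with h | h
    · convert key u hu v hv h
    · convert (key v hv u hu h).symm
  · have : #U ≤ n + n + φ.length + φ.length := by
      refine (card_union_le _ _).trans (Nat.add_le_add ((card_union_le _ _).trans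
        (Nat.add_le_add ((card_union_le _ _).trans (Nat.add_le_add ?_ ?_)) ?_)) ?_) <;>
        exact card_image_le.trans (by simp)
    omega

theorem gadget_sound {q : ℕ} (hq : 2 * q ≤ ∑ u ∈ S, deg S (adB φ) u + 2 * (n + φ.length))
    (h : Lab S (adB φ) q) : ∃ τ : ℕ → Bool, ∀ j < φ.length, ∃ l ∈ φ.getD j [], τ l.2 = l.1 := by
  obtain ⟨f, hf, hsum⟩ := h
  have hmem : ∀ {u v : Vx}, v ∈ ({v ∈ S | adB φ u v = true} : Finset Vx) → u ∈ S →
      1 ≤ f u v ∧ f u v = f v u ∧ col S (adB φ) f u ≠ col S (adB φ) f v := fun hv hu =>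
    hf _ hu _ (mem_filter.1 hv).1 (mem_filter.1 hv).2
  have hvar : ∀ x < n, ∃ (b : Bool) (z : Lit), z.2 < M ∧
      2 ≤ f (0, (b, x), (false, 0)) (2, (b, x), z) := by
    intro x hx
    by_contra hc
    push Not at hc
    have hin : ∀ b, ((0, (b, x), (false, 0)) : Vx) ∈ S := fun b => by simp [hS, hx]; omega
    have e : ∀ b, col S (adB φ) f (0, (b, x), (false, 0)) =
        f (0, (b, x), (false, 0)) (0, (!b, x), (false, 0)) + 2 * M := by
      intro b
      have hN := nbr_W hS hn hM (l := (b, x)) hx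
      rw [col, hN, sum_insert (by simp), sum_image (fun a _ b _ h => by simpa using h),
        ← card_lits, card_eq_sum_ones]
      congr 1
      refine sum_congr rfl fun z hz => ?_
      have a1 := hc b z (mem_lits.1 hz)
      have a2 := (hmem (u := (0, (b, x), (false, 0))) (v := (2, (b, x), z))
        (by rw [hN]; exact mem_insert_of_mem (mem_image_of_mem _ hz)) (hin b)).1
      omega
    have := hmem (u := (0, (true, x), (false, 0))) (v := (0, (false, x), (false, 0)))
      (by rw [nbr_W hS hn hM (l := (true, x)) hx]; exact mem_insert_self _ _) (hin true)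
    rw [e, e] at this
    exact this.2.2 (congrArg (· + _) this.2.1)
  have hcl : ∀ j < φ.length, ∃ (s : Bool) (l : Lit), l.2 < n ∧ l ∈ φ.getD j [] ∧
      2 ≤ f (1, (false, 0), (s, j)) (2, l, (s, j)) := by
    intro j hj
    by_contra hc
    push Not at hc
    have hin : ∀ b, ((1, (false, 0), (b, j)) : Vx) ∈ S := fun b => by simp [hS, hn]; omega
    have e : ∀ b, col S (adB φ) f (1, (false, 0), (b, j)) =
        f (1, (false, 0), (b, j)) (1, (false, 0), (!b, j)) + #{l ∈ lits n | l ∈ φ.getD j []} := by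
      intro b
      have hN := nbr_Z hS hn hM (z := (b, j)) hj
      rw [col, hN, sum_insert (by simp), sum_image (fun a _ b _ h => by simpa using h),
        card_eq_sum_ones]
      congr 1
      refine sum_congr rfl fun l hl => ?_
      have a1 := hc b l (mem_lits.1 (mem_filter.1 hl).1) (mem_filter.1 hl).2
      have a2 := (hmem (u := (1, (false, 0), (b, j))) (v := (2, l, (b, j)))
        (by rw [hN]; exact mem_insert_of_mem (mem_image_of_mem _ hl)) (hin b)).1
      omega
    have := hmem (u := (1, (false, 0), (true, j))) (v := (1, (false, 0), (false, j)))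
      (by rw [nbr_Z hS hn hM (z := (true, j)) hj]; exact mem_insert_self _ _) (hin true)
    rw [e, e] at this
    exact this.2.2 (congrArg (· + _) this.2.1)
  choose! τ z a1 a2 using hvar
  choose! s l b1 b2 b3 using hcl
  let T : Finset (Vx × Vx) :=
    ((range n).image fun x => ((0, (τ x, x), (false, 0)), (2, (τ x, x), z x))) ∪
    ((range φ.length).image fun j => ((1, (false, 0), (s j, j)), (2, l j, (s j, j))))
  have hT : ∀ d, d ∈ T ↔ (∃ x < n, d = ((0, (τ x, x), (false, 0)), (2, (τ x, x), z x))) ∨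
      (∃ j < φ.length, d = ((1, (false, 0), (s j, j)), (2, l j, (s j, j)))) := by
    intro d
    simp only [T, mem_union, mem_image, mem_range, eq_comm (a := d)]
  have hcard : #T = n + φ.length := by
    rw [card_union_of_disjoint (by simp [disjoint_left]),
      card_image_of_injective _ (fun a b h => by simp at h; exact h.1.2),
      card_image_of_injective _ (fun a b h => by simp at h; exact h.1.2), card_range, card_range]
  have hb := budget (adB_symm φ) (fun u hu v hv h => ⟨(hf u hu v hv h).1, (hf u hu v hv h).2.1⟩) T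
    (fun d hd => by
      rcases (hT d).1 hd with ⟨x, h, rfl⟩ | ⟨j, h, rfl⟩
      · have := a1 x h
        refine ⟨by simp [hS]; omega, by simp [hS]; omega, by simp [adB, relB], a2 x h, by simp [hT]⟩
      · have := b1 j h
        have h2 := b2 j h
        simp only [List.getD_eq_getElem?_getD] at h2
        refine ⟨by simp [hS]; omega, by simp [hS]; omega, by simp [adB, relB, h2], b3 j h,
          by simp [hT]⟩)
    (by omega)
  refine ⟨τ, fun j hj => ⟨l j, b2 j hj, ?_⟩⟩
  by_contra hne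
  have hl := b1 j hj
  have hin1 : ((0, l j, (false, 0)) : Vx) ∈ S := by simp [hS]; omega
  have hin2 : ((2, l j, (s j, j)) : Vx) ∈ S := by simp [hS]; omega
  have c1 := hb _ hin1
  have c2 := hb _ hin2
  rw [deg_W hS hn hM hl, card_eq_zero.2] at c1
  rw [deg_P hS hn hM hl (by simp; omega), if_pos (b2 j hj),
    card_eq_one.2 ⟨(1, (false, 0), (s j, j)), ?_⟩] at c2
  · refine (hf _ hin1 _ hin2 (by simp [adB, relB])).2.2 ?_
    omega
  · ext v
    simp only [mem_filter, hT, mem_singleton, Prod.mk.injEq]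
    constructor
    · rintro ⟨-, -, h⟩
      grind
    · rintro rfl
      have h2 := b2 j hj
      simp only [List.getD_eq_getElem?_getD] at h2
      refine ⟨by simp [hS]; omega, by simp [adB, relB, h2], Or.inr (Or.inr ⟨j, hj, by simp⟩)⟩
  · ext v
    simp only [mem_filter, hT, Prod.mk.injEq, notMem_empty, iff_false]
    rintro ⟨-, -, h⟩
    grind

end

end Pool.Agent.P.MP_ec274c_lc
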