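import Pool.Agent.P.MP_ec274c_lc.Basic
import Pool.Agent.Lib.NP.Dec

/-! Adjacency matrices, and membership of MIN-SUM in NP. -/

namespace Pool.Agent.P.MP_ec274c_lc

open Pool.Agent.Lib.NP N487b59b3 N68a2faeb Polynomial

def ent (A : List (List Bool)) (i j : ℕ) : Bool := (A.getD i []).getD j false

def chkGraph (A : List (List Bool)) : Bool :=
  (List.range A.length).all fun i => (A.getD i []).length == A.length && !ent A i i &&
    (List.range A.length).all fun j => !ent A i j || ent A j i

theorem length_adjMatrix {n : ℕ} (G : SimpleGraph (Fin n)) : (adjMatrix G).length = n := by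
  simp [adjMatrix]

theorem ent_adjMatrix {n : ℕ} (G : SimpleGraph (Fin n)) (i j : Fin n) :
    ent (adjMatrix G) i j = true ↔ G.Adj i j := by
  simp [ent, adjMatrix]

theorem chkGraph_adjMatrix {n : ℕ} (G : SimpleGraph (Fin n)) : chkGraph (adjMatrix G) = true := by
  simp only [chkGraph, length_adjMatrix, List.all_eq_true, List.mem_range, Bool.and_eq_true,
    beq_iff_eq, Bool.not_eq_true', Bool.or_eq_true]
  intro i hi
  refine ⟨⟨by simp [adjMatrix, hi], ?_⟩, fun j hj => ?_⟩
  · rw [← Bool.not_eq_true, ent_adjMatrix G ⟨i, hi⟩ ⟨i, hi⟩]; simp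
  · rw [← Bool.not_eq_true, ent_adjMatrix G ⟨i, hi⟩ ⟨j, hj⟩, ent_adjMatrix G ⟨j, hj⟩ ⟨i, hi⟩,
      G.adj_comm]
    tauto

theorem exists_graph {A : List (List Bool)} (h : chkGraph A = true) :
    ∃ G : SimpleGraph (Fin A.length), adjMatrix G = A := by
  simp only [chkGraph, List.all_eq_true, List.mem_range, Bool.and_eq_true,
    beq_iff_eq, Bool.not_eq_true', Bool.or_eq_true] at h
  refine ⟨⟨fun i j => ent A i j = true, ⟨fun i j hij => ?_⟩, ⟨fun i hi => ?_⟩⟩, ?_⟩
  · have := (h i i.2).2 j j.2
    simpa [hij] using this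
  · simp [(h i i.2).1.2] at hi
  · unfold adjMatrix
    apply List.ext_getElem (by simp)
    intro i h1 h2
    have h3 : A[i].length = A.length := by simpa [h2] using (h i h2).1.1
    apply List.ext_getElem (by simp [h3])
    intro j h4 h5
    simp [ent, h5]

theorem adjMatrix_inj {n n' : ℕ} {G : SimpleGraph (Fin n)} {G' : SimpleGraph (Fin n')}
    (h : adjMatrix G = adjMatrix G') : ∃ e : n = n', e ▸ G = G' := by
  obtain rfl : n = n' := by simpa [adjMatrix] using congrArg List.length h
  refine ⟨rfl, ?_⟩
  ext i j
  have := congrFun (List.ofFn_injective (congrFun (List.ofFn_injective h) i)) j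
  simpa using this

theorem minSum_encode {n : ℕ} (G : SimpleGraph (Fin n)) (q : ℕ) :
    MinSum (bitEncode (adjMatrix G, q)) = true ↔ Nice G ∧ mE G ≤ q := by
  simp only [MinSum, decide_eq_true_eq]
  constructor
  · rintro ⟨n', G', L', h1, h2⟩
    obtain ⟨h3, rfl⟩ := Prod.mk.inj (bitEncode_injective h1)
    obtain ⟨rfl, rfl⟩ := adjMatrix_inj h3
    exact h2
  · exact fun h => ⟨n, G, q, rfl, h⟩

theorem lab_mat {n : ℕ} (G : SimpleGraph (Fin n)) (q : ℕ) :
    Nice G ∧ mE G ≤ q ↔ Lab (Finset.range n) (ent (adjMatrix G)) q :=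
  lab_iff G _ _ Fin.val Fin.val_injective
    (fun a => ⟨fun h => ⟨⟨a, by simpa using h⟩, rfl⟩, by rintro ⟨v, rfl⟩; simp⟩)
    (fun u v => (ent_adjMatrix G u v).symm) q

theorem sum_range_list (n : ℕ) (g : ℕ → ℕ) :
    ∑ i ∈ Finset.range n, g i = ((List.range n).map g).sum := by
  induction n with
  | zero => rfl
  | succ n ih => simp [Finset.sum_range_succ, List.range_succ, ih]

/-! ### Binary numbers -/

def bval (r : List Bool) : ℕ := r.foldr (fun b a => 2 * a + bif b then 1 else 0) 0

def capVal (B : ℕ) (r : List Bool) : ℕ :=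
  r.reverse.foldl (fun a b => min B (2 * a + bif b then 1 else 0)) 0

theorem capVal_eq (B : ℕ) (r : List Bool) : capVal B r = min B (bval r) := by
  induction r with
  | nil => simp [capVal, bval]
  | cons b r ih =>
    unfold capVal bval at *
    rw [List.reverse_cons, List.foldl_append, ih, List.foldr_cons]
    simp only [List.foldl_cons, List.foldl_nil]
    omega

theorem pt_capVal : PT (fun p : ℕ × List Bool => capVal p.1 p.2) := by
  refine PT.foldl (f := fun (p : ℕ × List Bool) a b => min p.1 (2 * a + bif b then 1 else 0))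
    (by fun_prop) (by fun_prop) (by fun_prop) X ?_
  rintro ⟨B, r⟩ i
  have := capVal_eq B (r.reverse.take i).reverse
  rw [capVal, List.reverse_reverse] at this
  simp only [this, sz_nat, eval_X, sz_prod]
  omega

theorem bval_encodeNat (n : ℕ) : bval (Computability.encodeNat n) = n ∧
    (Computability.encodeNat n).reverse.headD true = true := by
  induction n using Nat.strong_induction_on with
  | _ n ih =>
    rcases eq_or_ne n 0 with rfl | hn
    · exact ⟨rfl, rfl⟩
    · obtain ⟨h1, h2⟩ := ih (n / 2) (by omega)
      rw [PT.encodeNat_step n hn]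
      refine ⟨?_, ?_⟩
      · unfold bval at *
        rw [List.foldr_cons, h1]
        rcases Nat.mod_two_eq_zero_or_one n with h | h <;> simp [h] <;> omega
      · rcases eq_or_ne (n / 2) 0 with h | h
        · have : n = 1 := by omega
          subst this; rfl
        · rw [PT.encodeNat_step _ h] at h2 ⊢
          simpa [List.reverse_cons, List.headD_eq_head?_getD, List.head?_append] using h2

theorem encodeNat_bval (r : List Bool) (h : r.reverse.headD true = true) :
    Computability.encodeNat (bval r) = r ∧ (r ≠ [] → bval r ≠ 0) := by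
  induction r with
  | nil => exact ⟨rfl, fun h => absurd rfl h⟩
  | cons b r ih =>
    have e : bval (b :: r) = 2 * bval r + bif b then 1 else 0 := rfl
    rcases eq_or_ne r [] with rfl | hr
    · have : b = true := by simpa using h
      subst this
      exact ⟨rfl, fun _ => by simp [bval]⟩
    · have h' : r.reverse.headD true = true := by
        obtain ⟨c, t, hc⟩ := List.exists_cons_of_ne_nil (show r.reverse ≠ [] by simpa using hr)
        rw [List.reverse_cons, hc] at h
        rw [hc]; simpa using h
      obtain ⟨h1, h2⟩ := ih h'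
      have h3 := h2 hr
      refine ⟨?_, fun _ => by omega⟩
      rw [PT.encodeNat_step _ (by omega), e]
      cases b
      · simp [h1]
      · have : (2 * bval r + 1) / 2 = bval r := by omega
        simp [h1, this]

/-! ### The verifier -/

def nent (L : List (List ℕ)) (i j : ℕ) : ℕ := (L.getD i []).getD j 0

def colL (A : List (List Bool)) (L : List (List ℕ)) (i : ℕ) : ℕ :=
  ((List.range A.length).map fun j => bif ent A i j then nent L i j else 0).sum

def totL (A : List (List Bool)) (L : List (List ℕ)) : ℕ :=
  ((List.range A.length).map fun i => colL A L i).sum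

def chkLab (A : List (List Bool)) (L : List (List ℕ)) : Bool :=
  (List.range A.length).all fun i => (List.range A.length).all fun j =>
    !ent A i j || (decide (1 ≤ nent L i j) && nent L i j == nent L j i &&
      colL A L i != colL A L j)

abbrev Wit := List (List Bool) × List Bool × List (List ℕ)

def chk (x : List Bool) (t : Wit) : Bool :=
  x == delimit (enc t.1) ++ t.2.1 && t.2.1.reverse.headD true && chkGraph t.1 &&
    chkLab t.1 t.2.2 && decide (totL t.1 t.2.2 ≤ 2 * capVal (totL t.1 t.2.2) t.2.1)

theorem pt_chk : PT (fun p : List Bool × Wit => chk p.1 p.2) := by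
  have h1 : PT (fun p : List Bool × Wit => totL p.2.1 p.2.2.2) := by
    unfold totL colL ent nent; fun_prop
  have h2 : PT (fun p : List Bool × Wit => capVal (totL p.2.1 p.2.2.2) p.2.2.1) :=
    pt_capVal.comp (g := fun p : List Bool × Wit => (totL p.2.1 p.2.2.2, p.2.2.1))
      (h1.mk (by fun_prop))
  unfold chk chkGraph chkLab colL ent nent
  fun_prop

theorem colL_eq (A : List (List Bool)) (L : List (List ℕ)) (i : ℕ) :
    colL A L i = col (Finset.range A.length) (ent A) (nent L) i := by
  rw [colL, col, Finset.sum_filter, sum_range_list]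
  congr 2
  funext j
  cases ent A i j <;> rfl

theorem chk_iff (A : List (List Bool)) (L : List (List ℕ)) (r : List Bool) :
    (chkLab A L = true ∧ totL A L ≤ 2 * capVal (totL A L) r) ↔
    (∀ u ∈ Finset.range A.length, ∀ v ∈ Finset.range A.length, ent A u v = true →
      1 ≤ nent L u v ∧ nent L u v = nent L v u ∧ col (Finset.range A.length) (ent A) (nent L) u ≠
        col (Finset.range A.length) (ent A) (nent L) v) ∧
      ∑ u ∈ Finset.range A.length, col (Finset.range A.length) (ent A) (nent L) u ≤ 2 * bval r := by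
  have ht : ∑ u ∈ Finset.range A.length, col (Finset.range A.length) (ent A) (nent L) u =
      totL A L := by
    rw [totL, ← sum_range_list]
    exact Finset.sum_congr rfl fun i _ => (colL_eq A L i).symm
  rw [ht, capVal_eq]
  simp only [← colL_eq]
  refine and_congr ?_ ?_
  · simp only [chkLab, List.all_eq_true, List.mem_range, Finset.mem_range, Bool.or_eq_true,
      Bool.not_eq_true', Bool.and_eq_true, decide_eq_true_eq, beq_iff_eq, bne_iff_ne, and_assoc]
    refine forall₂_congr fun u _ => forall₂_congr fun v _ => ?_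
    cases ent A u v <;> simp
  · omega

theorem chk_sound (x : List Bool) (t : Wit) (h : chk x t = true) : MinSum x = true := by
  obtain ⟨A, r, L⟩ := t
  simp only [chk, Bool.and_eq_true, beq_iff_eq, decide_eq_true_eq] at h
  obtain ⟨⟨⟨⟨h1, h2⟩, h3⟩, h4⟩, h5⟩ := h
  obtain ⟨G, hG⟩ := exists_graph h3
  have h6 := (chk_iff A L r).1 ⟨h4, h5⟩
  have hx : x = bitEncode (adjMatrix G, bval r) := by
    rw [hG, h1, ← (encodeNat_bval r h2).1, (bval_encodeNat _).1]; rfl
  rw [hx, minSum_encode, lab_mat, hG]
  exact ⟨_, h6⟩

theorem chk_complete (x : List Bool) (h : MinSum x = true) :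
    ∃ t : Wit, sz t ≤ (100 * (X + 1) ^ 6 : Polynomial ℕ).eval x.length ∧ chk x t = true := by
  simp only [MinSum, decide_eq_true_eq] at h
  obtain ⟨n, G, q, hx, hn, hq⟩ := h
  have hx' : x = delimit (enc (adjMatrix G)) ++ Computability.encodeNat q := hx
  obtain ⟨f, hf, hs⟩ := (lab_mat G _).1 ⟨hn, le_rfl⟩
  have hB := mE_le_bound G hn
  rw [Fintype.card_fin] at hB
  let L : List (List ℕ) := (List.range n).map fun i => (List.range n).map fun j =>
    bif ent (adjMatrix G) i j then f i j else 0
  have hL : ∀ i < n, ∀ j < n, ent (adjMatrix G) i j = true → nent L i j = f i j := by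
    intro i hi j hj h
    simp [nent, L, hi, hj, h]
  have hc : ∀ i < n, col (Finset.range n) (ent (adjMatrix G)) (nent L) i =
      col (Finset.range n) (ent (adjMatrix G)) f i := fun i hi =>
    Finset.sum_congr rfl fun j hj => by
      simp only [Finset.mem_filter, Finset.mem_range] at hj
      exact hL i hi j hj.1 hj.2
  refine ⟨(adjMatrix G, Computability.encodeNat q, L), ?_, ?_⟩
  · have e1 : sz (adjMatrix G) ≤ x.length := by rw [hx']; simp [sz]; omega
    have e2 : n ≤ x.length := by
      have := length_le_sz (adjMatrix G)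
      rw [length_adjMatrix] at this; omega
    have e3 : sz (Computability.encodeNat q) ≤ 3 * x.length := by
      rw [PT.sz_bits, hx']; simp
    have e4 := sz_list_le L (n * (2 * (2 * (n + 1) ^ 4) + 1)) (fun a ha => by
      obtain ⟨i, hi, rfl⟩ := List.mem_map.1 ha
      refine (sz_list_le _ (2 * (n + 1) ^ 4) fun b hb => ?_).trans (by simp)
      obtain ⟨j, hj, rfl⟩ := List.mem_map.1 hb
      cases h : ent (adjMatrix G) i j
      · simp
      · have a1 : f i j ≤ col (Finset.range n) (ent (adjMatrix G)) f i :=
          Finset.single_le_sum (f := fun v => f i v) (fun _ _ => Nat.zero_le _)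
            (by simpa [h] using hj)
        have a2 := Finset.single_le_sum (f := col (Finset.range n) (ent (adjMatrix G)) f)
          (fun _ _ => Nat.zero_le _) (show i ∈ Finset.range n by simpa using hi)
        simp only [cond_true, sz_nat]
        omega)
    rw [show L.length = n by simp [L]] at e4
    simp only [sz_prod, eval_mul, eval_pow, eval_add, eval_X, eval_one, eval_ofNat]
    generalize x.length = N at *
    have e5 : (n + 1) ^ 4 ≤ (N + 1) ^ 4 := Nat.pow_le_pow_left (by omega) _
    have e6 : 1 ≤ (N + 1) ^ 4 := Nat.one_le_pow _ _ (by omega)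
    have e7 : (N + 1) ^ 6 = (N + 1) * ((N + 1) * (N + 1) ^ 4) := by ring
    rw [e7]
    generalize (N + 1) ^ 4 = P at *
    generalize (n + 1) ^ 4 = p at *
    have e8 : n * (2 * (2 * p) + 1) ≤ (N + 1) * (5 * P) := Nat.mul_le_mul (by omega) (by omega)
    have e9 : N + 1 ≤ (N + 1) * P := Nat.le_mul_of_pos_right _ e6
    have e10 : (N + 1) * (5 * P) = 5 * ((N + 1) * P) := by ring
    generalize (N + 1) * P = Q at *
    have e11 : n * (2 * (n * (2 * (2 * p) + 1)) + 1) ≤ (N + 1) * (11 * Q) :=
      Nat.mul_le_mul (by omega) (by omega)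
    have e12 : N + 1 ≤ (N + 1) * Q := Nat.le_mul_of_pos_right _ (by omega)
    have e13 : (N + 1) * (11 * Q) = 11 * ((N + 1) * Q) := by ring
    omega
  · simp only [chk, Bool.and_eq_true, beq_iff_eq, decide_eq_true_eq, and_assoc]
    refine ⟨hx', (bval_encodeNat q).2, chkGraph_adjMatrix G, (chk_iff _ _ _).2 ?_⟩
    rw [length_adjMatrix, (bval_encodeNat q).1]
    refine ⟨fun u hu v hv h => ?_, ?_⟩
    · have h' : ent (adjMatrix G) v u = true :=
        (ent_adjMatrix G ⟨v, by simpa using hv⟩ ⟨u, by simpa using hu⟩).2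
          ((ent_adjMatrix G ⟨u, by simpa using hu⟩ ⟨v, by simpa using hv⟩).1 h).symm
      have := hf u hu v hv h
      rw [Finset.mem_range] at hu hv
      rwa [hL u hu v hv h, hL v hv u hu h', hc u hu, hc v hv]
    · rw [Finset.sum_congr rfl fun i hi => hc i (Finset.mem_range.1 hi)]
      exact hs.trans (by omega)

theorem minSum_mem_NP : MinSum ∈ NP :=
  mem_NP_of_check
    ((HasDec.bool.list.list).prod (HasDec.bool.list.prod HasDec.nat.list.list))
    chk pt_chk _ chk_complete chk_sound

end Pool.Agent.P.MP_ec274c_lc
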