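import Pool.Agent.P.MP_ec274c_lc.Gadget
import Pool.Agent.P.MP_ec274c_lc.Member
import Pool.Agent.Lib.NP.SatNat

/-! NP-hardness of MIN-SUM. -/

namespace Pool.Agent.P.MP_ec274c_lc

open Pool.Agent.Lib.NP N487b59b3 N68a2faeb N793a5b8e

def nv (φ : CNF ℕ) : ℕ := (φ.flatten.map fun l => l.2).sum + 1

def slots (φ : CNF ℕ) : ℕ := φ.length + nv φ + 3

def verts (φ : CNF ℕ) : List Vx :=
  List.range (2 * slots φ + 1) ×ˢ ([false, true] ×ˢ List.range (nv φ)) ×ˢ
    ([false, true] ×ˢ List.range (slots φ))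

def bound (φ : CNF ℕ) : ℕ :=
  ((verts φ).map fun u => (verts φ).countP fun v => adB φ u v).sum / 2 + (nv φ + φ.length)

theorem verts_nodup (φ : CNF ℕ) : (verts φ).Nodup :=
  List.nodup_range.product (((show [false, true].Nodup by simp).product List.nodup_range).product
    ((show [false, true].Nodup by simp).product List.nodup_range))

theorem mem_verts (φ : CNF ℕ) (v : Vx) : v ∈ (verts φ).toFinset ↔
    v.1 < 2 * slots φ + 1 ∧ v.2.1.2 < nv φ ∧ v.2.2.2 < slots φ := by
  rcases v with ⟨r, ⟨b, x⟩, ⟨s, j⟩⟩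
  cases b <;> cases s <;> simp [verts]

theorem var_lt (φ : CNF ℕ) {c : List (Bool × ℕ)} (hc : c ∈ φ) {l : Bool × ℕ} (hl : l ∈ c) :
    l.2 < nv φ := by
  have : l.2 ∈ φ.flatten.map fun l => l.2 :=
    List.mem_map.2 ⟨l, List.mem_flatten.2 ⟨c, hc, hl⟩, rfl⟩
  exact Nat.lt_succ_of_le (List.le_sum_of_mem this)

theorem sum_deg (φ : CNF ℕ) : ∑ u ∈ (verts φ).toFinset, deg (verts φ).toFinset (adB φ) u =
    ((verts φ).map fun u => (verts φ).countP fun v => adB φ u v).sum := by
  rw [List.sum_toFinset _ (verts_nodup φ)]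
  congr 2
  funext u
  rw [deg, List.countP_eq_length_filter, ← List.toFinset_card_of_nodup ((verts_nodup φ).filter _),
    List.toFinset_filter]

theorem sat_iff_lab (φ : CNF ℕ) : φ.Sat ↔ Lab (verts φ).toFinset (adB φ) (bound φ) := by
  have h2 := even_sum_deg (S := (verts φ).toFinset) (adB_symm φ) (adB_irrefl φ)
  have hn : 0 < nv φ := Nat.succ_pos _
  have hb := sum_deg φ
  constructor
  · rintro ⟨τ, hτ⟩
    have : ∀ j < φ.length, ∃ l ∈ φ.getD j [], l.2 < nv φ ∧ τ l.2 = l.1 := by
      intro j hj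
      obtain ⟨l, h1, h2⟩ := hτ _ (List.getElem_mem hj)
      exact ⟨l, by simpa [hj] using h1, var_lt φ (List.getElem_mem hj) h1, h2⟩
    choose! lit hlit using this
    exact gadget_complete (mem_verts φ) hn le_rfl τ lit hlit (by unfold bound; omega)
  · intro h
    obtain ⟨τ, hτ⟩ := gadget_sound (mem_verts φ) hn le_rfl (by unfold bound; omega) h
    refine ⟨τ, fun c hc => ?_⟩
    obtain ⟨j, hj, rfl⟩ := List.getElem_of_mem hc
    simpa [hj] using hτ j hj

/-- The graph of the reduction. -/
def gadget (φ : CNF ℕ) : SimpleGraph (Fin (verts φ).length) where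
  Adj i j := adB φ ((verts φ).get i) ((verts φ).get j) = true
  symm := ⟨fun _ _ h => adB_symm _ _ _ h⟩
  loopless := ⟨fun _ h => adB_irrefl _ _ h⟩

theorem adjMatrix_gadget (φ : CNF ℕ) :
    adjMatrix (gadget φ) = (verts φ).map fun u => (verts φ).map fun v => adB φ u v := by
  unfold adjMatrix
  apply List.ext_getElem (by simp)
  intro i h1 h2
  apply List.ext_getElem (by simp)
  intro j h3 h4
  simp [gadget]

/-- The output string of the reduction. -/
def red (φ : CNF ℕ) : List Bool :=
  delimit (enc ((verts φ).map fun u => (verts φ).map fun v => adB φ u v)) ++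
    Computability.encodeNat (bound φ)

theorem pt_red : PT red := by
  have h1 : PT nv := by unfold nv; fun_prop
  have h2 : PT slots := by unfold slots; fun_prop
  have h4 : PT verts := by unfold verts; fun_prop
  have h5 : PT bound := by unfold bound adB relB; fun_prop
  unfold red adB relB
  fun_prop

theorem red_eq (φ : CNF ℕ) : red φ = bitEncode (adjMatrix (gadget φ), bound φ) := by
  rw [adjMatrix_gadget]; rfl

theorem minSum_hard : ∀ L ∈ NP, ManyOneReducible L MinSum := by
  refine NPHardPT.manyOne (sat_nat.reduce (g := red) pt_red fun φ => ?_)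
  rw [red_eq, minSum_encode, sat_iff_lab]
  exact (lab_iff (gadget φ) _ _ (verts φ).get (List.nodup_iff_injective_get.1 (verts_nodup φ))
    (fun a => by rw [List.mem_toFinset, List.mem_iff_get]) (fun _ _ => Iff.rfl) _).symm

end Pool.Agent.P.MP_ec274c_lc
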