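import Pool.Agent.P.MP_ec274c_lc.TreeSem
import Pool.Agent.P.MP_ec274c_lc.Member
import Pool.Agent.Lib.NP.SatNat

/-! The polynomial-time algorithm for forests. -/

namespace Pool.Agent.P.MP_ec274c_lc

open Pool.Agent.Lib.NP N487b59b3 N68a2faeb Polynomial

abbrev Mat := List (List Bool)

abbrev St := List ℕ × List (List T3)

def cube (B : ℕ) : List T3 := List.range (B + 1) ×ˢ List.range (B + 1) ×ˢ List.range (B + 1)

def leafPairs (A : Mat) (al : List ℕ) : List (ℕ × ℕ) :=
  (al ×ˢ al).filter fun p => ent A p.1 p.2 && al.all fun w => !ent A p.1 w || w == p.2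

def mergeT (Tv Tu : List T3) (y : T3) : Bool :=
  Tv.any fun p => Tu.any fun r => decide (r.1 < r.2.1) && r.2.1 != p.2.1 &&
    y == (p.1 + (r.2.1 - r.1), p.2.1, p.2.2 + r.2.2 + (r.2.1 - r.1))

def stepAt (n B : ℕ) (s : St) (p : ℕ × ℕ) : St :=
  ((List.range n).filter fun w => decide (w ∈ s.1) && w != p.1,
    (List.range n).map fun w => (cube B).filter fun y =>
      bif w == p.2 then mergeT (s.2.getD p.2 []) (s.2.getD p.1 []) y
      else decide (y ∈ s.2.getD w []))

def step (A : Mat) (B : ℕ) (s : St) : St :=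
  stepAt A.length B s ((leafPairs A s.1).headD (A.length, A.length))

def init (n B : ℕ) : St :=
  (List.range n, (List.range n).map fun _ => (List.range (B + 1)).map fun c => (0, c, 0))

def run (A : Mat) (B : ℕ) : St :=
  (List.range A.length).foldl (fun s _ => step A B s) (init A.length B)

def mu (B : ℕ) (T : List T3) : ℕ :=
  (List.range (B + 1)).countP fun t => T.all fun y => y.1 != y.2.1 || decide (t < y.2.2)

def ansB (B : ℕ) (s : St) : ℕ := (s.1.map fun w => mu B (s.2.getD w [])).sum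

def ans (A : Mat) : ℕ := ansB (2 * (A.length + 1) ^ 4) (run A (2 * (A.length + 1) ^ 4))

/-! ### Polynomial time -/

theorem sz_filter_le {β : Type} [Enc β] (p : β → Bool) (l : List β) : sz (l.filter p) ≤ sz l := by
  induction l with
  | nil => simp
  | cons a l ih => rw [List.filter_cons]; split_ifs <;> simp <;> omega

theorem sz_foldl_le {σ β : Type} [Enc σ] (f : σ → β → σ) (R : ℕ) (h : ∀ s b, sz (f s b) ≤ R)
    (l : List β) (s : σ) (hs : sz s ≤ R) : sz (l.foldl f s) ≤ R := by
  induction l generalizing s with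
  | nil => exact hs
  | cons b l ih => exact ih _ (h _ _)

theorem pt_run : PT (fun a : Mat × ℕ => run a.1 a.2) := by
  have h1 : PT (fun a : Mat × ℕ => cube a.2) := by unfold cube; fun_prop
  have h2 : PT (fun a : Mat × ℕ => init a.1.length a.2) := by unfold init; fun_prop
  have h3 : PT (fun a : Mat × ℕ => List.range a.1.length) := by fun_prop
  obtain ⟨r1, hr1⟩ := h1.size
  obtain ⟨r2, hr2⟩ := h2.size
  obtain ⟨r3, hr3⟩ := h3.size
  refine PT.foldl (f := fun (a : Mat × ℕ) s _ => step a.1 a.2 s) ?_ h3 h2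
    (r2 + (2 * r3 + 1 + r3 * (2 * r1 + 1))) fun a i => ?_
  · unfold step stepAt leafPairs mergeT cube ent
    fun_prop
  · refine sz_foldl_le _ _ (fun s b => ?_) _ _ ((hr2 a).trans (by simp))
    unfold step stepAt
    generalize (leafPairs a.1 s.1).headD (a.1.length, a.1.length) = p
    have e1 := (sz_filter_le (fun w => decide (w ∈ s.1) && w != p.1) _).trans (hr3 a)
    have e2 := sz_list_le ((List.range a.1.length).map fun w => (cube a.2).filter fun y =>
      bif w == p.2 then mergeT (s.2.getD p.2 []) (s.2.getD p.1 []) y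
      else decide (y ∈ s.2.getD w [])) (r1.eval (sz a)) (fun b hb => by
        obtain ⟨w, -, rfl⟩ := List.mem_map.1 hb
        exact (sz_filter_le _ _).trans (hr1 a))
    have e3 := (length_le_sz _).trans (hr3 a)
    rw [List.length_map] at e2
    have e4 := Nat.mul_le_mul_right (2 * r1.eval (sz a) + 1) e3
    simp only [sz_prod, eval_add, eval_mul, eval_ofNat, eval_one]
    omega

theorem pt_ans : PT ans := by
  have h1 : PT (fun A : Mat => run A (2 * (A.length + 1) ^ 4)) :=
    pt_run.comp (g := fun A : Mat => (A, 2 * (A.length + 1) ^ 4)) (by fun_prop)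
  have h2 : PT (fun p : ℕ × St => ansB p.1 p.2) := by unfold ansB mu; fun_prop
  exact h2.comp (g := fun A : Mat => (2 * (A.length + 1) ^ 4, run A (2 * (A.length + 1) ^ 4)))
    (PT.mk (by fun_prop) h1)

/-! ### Correctness -/

theorem mem_cube {B : ℕ} {y : T3} : y ∈ cube B ↔ y.1 ≤ B ∧ y.2.1 ≤ B ∧ y.2.2 ≤ B := by
  rcases y with ⟨a, b, c⟩
  simp [cube]

theorem mu_spec {B : ℕ} {T : List T3} {y : T3} (hy : y ∈ T) (h1 : y.1 = y.2.1) (h2 : y.2.2 ≤ B) :
    mu B T ≤ y.2.2 ∧ ∃ y' ∈ T, y'.1 = y'.2.1 ∧ y'.2.2 = mu B T := by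
  classical
  have hex : ∃ t, ∃ y' ∈ T, y'.1 = y'.2.1 ∧ y'.2.2 = t := ⟨_, y, hy, h1, rfl⟩
  have hmin : ∀ y' ∈ T, y'.1 = y'.2.1 → Nat.find hex ≤ y'.2.2 := fun y' a b =>
    Nat.find_min' hex ⟨y', a, b, rfl⟩
  have key : ∀ k N, (List.range N).countP (fun t => decide (t < k)) = min N k := by
    intro k N
    induction N with
    | zero => simp
    | succ N ih =>
      rw [List.range_succ, List.countP_append, ih]
      by_cases h : N < k <;> simp [h] <;> omega
  have e : mu B T = Nat.find hex := by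
    have := hmin y hy h1
    rw [mu, ← min_eq_right (show Nat.find hex ≤ B + 1 by omega), ← key]
    congr 1
    funext t
    rw [Bool.eq_iff_iff]
    simp only [List.all_eq_true, Bool.or_eq_true, bne_iff_ne, decide_eq_true_eq]
    constructor
    · intro h
      obtain ⟨y', a, b, c⟩ := Nat.find_spec hex
      rcases h y' a with h | h
      · exact absurd b h
      · omega
    · intro h y' a
      by_cases b : y'.1 = y'.2.1
      · have := hmin y' a b
        right; omega
      · exact Or.inl b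
  rw [e]
  exact ⟨hmin y hy h1, Nat.find_spec hex⟩

/-- The invariant of the loop. -/
def Inv (A : Mat) (B i : ℕ) (s : St) : Prop :=
  s.1.Nodup ∧ (∀ w ∈ s.1, w < A.length) ∧ (∀ w, ∀ y ∈ s.2.getD w [], y ∈ cube B) ∧
    (∀ t, 2 * t ≤ B → (Feas s.1.toFinset (ent A) (fun w y => y ∈ s.2.getD w []) t ↔
      Lab (Finset.range A.length) (ent A) t)) ∧
    ((∀ u ∈ s.1, ∀ v ∈ s.1, ¬ ent A u v = true) ∨ s.1.toFinset.card + i ≤ A.length)

theorem inv_init (A : Mat) (B : ℕ) : Inv A B 0 (init A.length B) := by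
  have hT : ∀ w < A.length, (init A.length B).2.getD w [] =
      (List.range (B + 1)).map fun c => (0, c, 0) := fun w hw => by simp [init, hw]
  refine ⟨List.nodup_range, fun w hw => by simpa [init] using hw, fun w y hy => ?_,
    fun t ht => ?_, Or.inr (by simpa [init] using List.toFinset_card_le (List.range A.length))⟩
  · by_cases hw : w < A.length
    · rw [hT w hw] at hy
      obtain ⟨c, hc, rfl⟩ := List.mem_map.1 hy
      simpa [mem_cube, Nat.lt_succ_iff] using hc
    · simp [init, hw] at hy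
  · have : (init A.length B).1.toFinset = Finset.range A.length := by ext; simp [init]
    rw [this]
    refine feas_init (fun w hw y => ?_) ht
    rw [hT w (by simpa using hw)]
    rcases y with ⟨a, b, c⟩
    simp only [List.mem_map, List.mem_range, Prod.mk.injEq, Nat.lt_succ_iff]
    constructor
    · rintro ⟨d, h1, rfl, rfl, rfl⟩; exact ⟨rfl, h1, rfl⟩
    · rintro ⟨rfl, h1, rfl⟩; exact ⟨b, h1, rfl, rfl, rfl⟩

theorem mem_stepAt {n B : ℕ} {s : St} {p : ℕ × ℕ} {w : ℕ} (hw : w < n) (y : T3) :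
    y ∈ (stepAt n B s p).2.getD w [] ↔ y ∈ cube B ∧
      (if w = p.2 then mergeT (s.2.getD p.2 []) (s.2.getD p.1 []) y = true
        else y ∈ s.2.getD w []) := by
  simp only [stepAt, List.getD_eq_getElem?_getD, List.getElem?_map, List.getElem?_range hw,
    Option.map_some, Option.getD_some, List.mem_filter]
  by_cases h : w = p.2
  · simp [h]
  · simp [h, beq_false_of_ne h]

theorem inv_step {A : Mat} (hs : ∀ a b, ent A a b = true → ent A b a = true)
    (hi : ∀ a, ¬ ent A a a = true)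
    (hl : ∀ S : List ℕ, (∃ a ∈ S, ∃ b ∈ S, ent A a b = true) →
      ∃ u ∈ S, ∃ v ∈ S, ent A u v = true ∧ ∀ w ∈ S, ent A u w = true → w = v)
    {B i : ℕ} {s : St} (h : Inv A B i s) : Inv A B (i + 1) (step A B s) := by
  obtain ⟨h1, h2, h3, h4, h5⟩ := h
  have hmem : ∀ p : ℕ × ℕ, p ∈ leafPairs A s.1 ↔ p.1 ∈ s.1 ∧ p.2 ∈ s.1 ∧ ent A p.1 p.2 = true ∧
      ∀ w ∈ s.1, ent A p.1 w = true → w = p.2 := by
    rintro ⟨a, b⟩
    simp only [leafPairs, List.mem_filter, List.mem_product, Bool.and_eq_true, List.all_eq_true,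
      Bool.or_eq_true, Bool.not_eq_true', beq_iff_eq, and_assoc]
    refine and_congr_right fun _ => and_congr_right fun _ => and_congr_right fun _ =>
      forall₂_congr fun w _ => ?_
    cases ent A a w <;> simp
  have hal : ∀ p w, w ∈ (stepAt A.length B s p).1 ↔ w ∈ s.1 ∧ w ≠ p.1 := by
    intro p w
    simp only [stepAt, List.mem_filter, List.mem_range, Bool.and_eq_true, decide_eq_true_eq,
      bne_iff_ne, and_iff_right_iff_imp]
    exact fun h => h2 w h.1
  have hfin : ∀ p, (stepAt A.length B s p).1.toFinset = s.1.toFinset.erase p.1 := by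
    intro p; ext w; simp [hal, and_comm]
  have hcube : ∀ p w, ∀ y ∈ (stepAt A.length B s p).2.getD w [], y ∈ cube B := by
    intro p w y hy
    by_cases hw : w < A.length
    · exact ((mem_stepAt hw y).1 hy).1
    · simp [stepAt, hw] at hy
  unfold step
  refine ⟨List.nodup_range.filter _, fun w hw => h2 w ((hal _ w).1 hw).1, hcube _, ?_⟩
  rcases hp : leafPairs A s.1 with _ | ⟨p, l⟩
  · have hno : ∀ u ∈ s.1, ∀ v ∈ s.1, ¬ ent A u v = true := by
      intro a ha b hb hab
      obtain ⟨u, hu, v, hv, c1, c2⟩ := hl s.1 ⟨a, ha, b, hb, hab⟩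
      have := (hmem (u, v)).2 ⟨hu, hv, c1, c2⟩
      simp [hp] at this
    refine ⟨fun t ht => ?_, Or.inl fun a ha b hb => hno a ((hal _ _).1 ha).1 b ((hal _ _).1 hb).1⟩
    rw [← h4 t ht, hfin, List.headD_nil, Finset.erase_eq_of_notMem (by
      intro h
      exact absurd (h2 _ (List.mem_toFinset.1 h)) (lt_irrefl _))]
    refine Feas.congr fun w hw y => ?_
    have hw' := h2 _ (List.mem_toFinset.1 hw)
    rw [mem_stepAt hw', if_neg hw'.ne, and_iff_right_iff_imp]
    exact h3 w y
  · obtain ⟨c1, c2, c3, c4⟩ := (hmem p).1 (by simp [hp])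
    rw [List.headD_cons, hfin]
    refine ⟨fun t ht => ?_, Or.inr ?_⟩
    · rw [← h4 t ht]
      refine (feas_step (B := B) hs (fun h => hi p.1 (by rw [← h] at c3; exact c3))
        (List.mem_toFinset.2 c1) (List.mem_toFinset.2 c2) c3
        (fun w hw => c4 w (List.mem_toFinset.1 hw)) (fun y hy => (mem_cube.1 (h3 _ y hy)).2.1)
        (fun w hw hne y => ?_) (fun y => ?_) (by omega)).symm
      · rw [mem_stepAt (h2 _ (List.mem_toFinset.1 hw)), if_neg hne, and_iff_right_iff_imp]
        exact h3 w y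
      · rw [mem_stepAt (h2 _ c2), if_pos rfl, mem_cube]
        simp only [mergeT, List.any_eq_true, Bool.and_eq_true, decide_eq_true_eq, bne_iff_ne,
          beq_iff_eq, and_assoc]
    · rcases h5 with h5 | h5
      · exact absurd c3 (h5 _ c1 _ c2)
      · have := Finset.card_erase_add_one (List.mem_toFinset.2 c1)
        omega

theorem ans_eq {n : ℕ} (G : SimpleGraph (Fin n)) (hG : G.IsAcyclic) (hn : Nice G) :
    ans (adjMatrix G) = mE G := by
  have hlt : ∀ a b, ent (adjMatrix G) a b = true → a < n ∧ b < n := by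
    intro a b h
    by_contra hc
    by_cases ha : a < n
    · have hb : ¬ b < n := fun hb => hc ⟨ha, hb⟩
      simp [ent, adjMatrix, ha, hb] at h
    · simp [ent, adjMatrix, ha] at h
  have hs : ∀ a b, ent (adjMatrix G) a b = true → ent (adjMatrix G) b a = true := fun a b h =>
    (ent_adjMatrix G ⟨b, (hlt a b h).2⟩ ⟨a, (hlt a b h).1⟩).2
      ((ent_adjMatrix G ⟨a, (hlt a b h).1⟩ ⟨b, (hlt a b h).2⟩).1 h).symm
  have hi : ∀ a, ¬ ent (adjMatrix G) a a = true := fun a h =>
    ((ent_adjMatrix G ⟨a, (hlt a a h).1⟩ ⟨a, (hlt a a h).1⟩).1 h).ne rfl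
  have hl : ∀ S : List ℕ, (∃ a ∈ S, ∃ b ∈ S, ent (adjMatrix G) a b = true) →
      ∃ u ∈ S, ∃ v ∈ S, ent (adjMatrix G) u v = true ∧
        ∀ w ∈ S, ent (adjMatrix G) u w = true → w = v := by
    rintro S ⟨a, ha, b, hb, h⟩
    obtain ⟨u, v, c1, c2⟩ := exists_leaf (G.induce {i : Fin n | i.1 ∈ S}) (hG.induce _)
      (a := ⟨⟨a, (hlt a b h).1⟩, ha⟩) (b := ⟨⟨b, (hlt a b h).2⟩, hb⟩)
      ((ent_adjMatrix G ⟨a, (hlt a b h).1⟩ ⟨b, (hlt a b h).2⟩).1 h)
    refine ⟨_, u.2, _, v.2, (ent_adjMatrix G _ _).2 c1, fun w hw h' => ?_⟩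
    have := c2 ⟨⟨w, (hlt _ _ h').2⟩, hw⟩ ((ent_adjMatrix G u.1 ⟨w, (hlt _ _ h').2⟩).1 h')
    rw [← this]
  have hB := mE_le_bound G hn
  rw [Fintype.card_fin] at hB
  unfold ans
  rw [length_adjMatrix]
  have hB' : 2 * mE G ≤ 2 * (n + 1) ^ 4 := by omega
  generalize 2 * (n + 1) ^ 4 = B at hB'
  have hrun : ∀ i, Inv (adjMatrix G) B i ((List.range i).foldl
      (fun s _ => step (adjMatrix G) B s) (init (adjMatrix G).length B)) := by
    intro i
    induction i with
    | zero => exact inv_init _ _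
    | succ i ih => rw [List.range_succ, List.foldl_append]; exact inv_step hs hi hl ih
  obtain ⟨h1, h2, h3, h4, h5⟩ : Inv (adjMatrix G) B (adjMatrix G).length (run (adjMatrix G) B) :=
    hrun _
  generalize run (adjMatrix G) B = s at *
  rw [length_adjMatrix] at h4
  have hno : ∀ u ∈ s.1.toFinset, ∀ v ∈ s.1.toFinset, ¬ ent (adjMatrix G) u v = true := by
    intro u hu v hv
    rcases h5 with h5 | h5
    · exact h5 u (List.mem_toFinset.1 hu) v (List.mem_toFinset.1 hv)
    · have := Finset.card_pos.2 ⟨u, hu⟩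
      omega
  obtain ⟨a1, a2⟩ := feas_final hno (fun w => mu B (s.2.getD w []))
    (fun w _ y hy hd => mu_spec hy hd (mem_cube.1 (h3 w y hy)).2.2)
    ((h4 _ hB').2 ((lab_mat G _).1 ⟨hn, le_rfl⟩))
  rw [ansB, ← List.sum_toFinset _ h1]
  exact le_antisymm a1 ((lab_mat G _).2 ((h4 _ (by omega)).1 a2)).2

theorem forest_polytime : ∃ f : List Bool → List Bool, IsPolyTime f ∧
    ∀ (n : ℕ) (T : SimpleGraph (Fin n)), T.IsAcyclic → Nice T →
      f (bitEncode (adjMatrix T)) = bitEncode (mE T) := by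
  obtain ⟨d, hd, hd'⟩ := HasDec.bool.list.list
  refine ⟨fun x => Computability.encodeNat (ans (d x)),
    (PT.encodeNat (pt_ans.comp hd)).isPolyTime_fun, fun n T h1 h2 => ?_⟩
  change Computability.encodeNat (ans (d (enc (adjMatrix T)))) = _
  rw [hd', ans_eq T h1 h2]
  rfl

end Pool.Agent.P.MP_ec274c_lc
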