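import Pool.Agent.P.MP_ec274c_lc.Basic

/-! Leaf elimination: the semantic part of the dynamic programme for forests. -/

namespace Pool.Agent.P.MP_ec274c_lc

open Finset

abbrev T3 := ℕ × ℕ × ℕ

/-- Every vertex picks a triple (label sum already eliminated, final colour, cost) from its table,
compatibly with a labelling of the remaining edges, at total cost at most `t`. -/
def Feas (S : Finset ℕ) (ad : ℕ → ℕ → Bool) (g : ℕ → T3 → Prop) (t : ℕ) : Prop :=
  ∃ (f : ℕ → ℕ → ℕ) (x : ℕ → T3),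
    (∀ w ∈ S, g w (x w) ∧ (x w).2.1 = (x w).1 + col S ad f w) ∧
    (∀ u ∈ S, ∀ v ∈ S, ad u v = true → 1 ≤ f u v ∧ f u v = f v u ∧ (x u).2.1 ≠ (x v).2.1) ∧
    2 * ∑ w ∈ S, (x w).2.2 + ∑ w ∈ S, col S ad f w ≤ 2 * t

theorem Feas.congr {S : Finset ℕ} {ad : ℕ → ℕ → Bool} {g g' : ℕ → T3 → Prop} {t : ℕ}
    (h : ∀ w ∈ S, ∀ y, g w y ↔ g' w y) : Feas S ad g t ↔ Feas S ad g' t := by
  unfold Feas
  refine exists₂_congr fun f x => and_congr_left fun _ => forall₂_congr fun w hw => ?_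
  rw [h w hw]

theorem feas_init {S : Finset ℕ} {ad : ℕ → ℕ → Bool} {g : ℕ → T3 → Prop} {t B : ℕ}
    (hg : ∀ w ∈ S, ∀ y, g w y ↔ y.1 = 0 ∧ y.2.1 ≤ B ∧ y.2.2 = 0) (ht : 2 * t ≤ B) :
    Feas S ad g t ↔ Lab S ad t := by
  constructor
  · rintro ⟨f, x, h1, h2, h3⟩
    refine ⟨f, fun u hu v hv h => ?_, by omega⟩
    have a1 := h1 u hu
    have a2 := h1 v hv
    have a3 := h2 u hu v hv h
    rw [hg _ hu] at a1
    rw [hg _ hv] at a2
    exact ⟨a3.1, a3.2.1, by omega⟩
  · rintro ⟨f, h1, h2⟩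
    refine ⟨f, fun w => (0, col S ad f w, 0), fun w hw => ⟨(hg w hw _).2 ⟨rfl, ?_, rfl⟩, by simp⟩,
      h1, by simpa using h2⟩
    have := Finset.single_le_sum (f := col S ad f) (fun _ _ => Nat.zero_le _) hw
    have h2' : S.sum (col S ad f) ≤ 2 * t := h2
    simp only
    omega

section step
variable {S : Finset ℕ} {ad : ℕ → ℕ → Bool} {u v : ℕ}
  (hs : ∀ a b, ad a b = true → ad b a = true) (hne : u ≠ v) (hu : u ∈ S) (hv : v ∈ S)
  (huv : ad u v = true) (hleaf : ∀ w ∈ S, ad u w = true → w = v)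

include hu hv huv hleaf in
theorem col_leaf (f : ℕ → ℕ → ℕ) : col S ad f u = f u v := by
  rw [col, Finset.sum_eq_single v]
  · intro b hb h
    simp only [mem_filter] at hb
    exact absurd (hleaf b hb.1 hb.2) h
  · intro h; exact absurd (by simp [hv, huv]) h

include hs hu huv hleaf in
theorem col_erase (f : ℕ → ℕ → ℕ) {w : ℕ} (hw : w ∈ S) :
    col S ad f w = col (S.erase u) ad f w + if w = v then f v u else 0 := by
  rw [col, col, Finset.sum_filter, Finset.sum_filter, ← Finset.sum_erase_add _ _ hu]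
  congr 1
  by_cases h : w = v
  · subst h; simp [hs _ _ huv]
  · rw [if_neg h, if_neg fun h' => h (hleaf w hw (hs _ _ h'))]

include hs hne hu hv huv hleaf in
theorem sum_col_erase (f : ℕ → ℕ → ℕ) :
    ∑ w ∈ S, col S ad f w = ∑ w ∈ S.erase u, col (S.erase u) ad f w + f u v + f v u := by
  rw [← Finset.sum_erase_add _ _ hu, col_leaf hu hv huv hleaf,
    Finset.sum_congr rfl fun w hw => col_erase hs hu huv hleaf f (mem_of_mem_erase hw),
    Finset.sum_add_distrib, Finset.sum_ite_eq', if_pos (mem_erase.2 ⟨hne.symm, hv⟩)]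
  omega

include hs hne hu hv huv hleaf in
theorem feas_step {g g' : ℕ → T3 → Prop} {B t : ℕ} (hB : ∀ y, g v y → y.2.1 ≤ B)
    (h1 : ∀ w ∈ S, w ≠ v → ∀ y, g' w y ↔ g w y)
    (h2 : ∀ y, g' v y ↔ (y.1 ≤ B ∧ y.2.1 ≤ B ∧ y.2.2 ≤ B) ∧ ∃ p, g v p ∧ ∃ r, g u r ∧
      r.1 < r.2.1 ∧ r.2.1 ≠ p.2.1 ∧
        y = (p.1 + (r.2.1 - r.1), p.2.1, p.2.2 + r.2.2 + (r.2.1 - r.1)))
    (ht : t ≤ B) : Feas S ad g t ↔ Feas (S.erase u) ad g' t := by
  have hv' : v ∈ S.erase u := mem_erase.2 ⟨hne.symm, hv⟩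
  constructor
  · rintro ⟨f, x, a1, a2, a3⟩
    obtain ⟨b1, b2, b3⟩ := a2 u hu v hv huv
    have b4 := (a1 u hu).2
    rw [col_leaf hu hv huv hleaf] at b4
    have b5 := (a1 v hv).2
    rw [col_erase hs hu huv hleaf f hv, if_pos rfl] at b5
    have b6 := hB _ (a1 v hv).1
    rw [sum_col_erase hs hne hu hv huv hleaf, ← Finset.sum_erase_add _ _ hu,
      ← Finset.sum_erase_add _ _ hv'] at a3
    let y : T3 := ((x v).1 + f u v, (x v).2.1, (x v).2.2 + (x u).2.2 + f u v)
    have hc : ∀ w, (Function.update x v y w).2.1 = (x w).2.1 := by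
      intro w
      by_cases h : w = v
      · subst h; simp [y]
      · simp [h]
    refine ⟨f, Function.update x v y, fun w hw => ?_, fun a ha b hb h => ?_, ?_⟩
    · by_cases h : w = v
      · subst h
        rw [Function.update_self, h2]
        refine ⟨⟨by simp only [y]; omega, _, (a1 w hv).1, _, (a1 u hu).1, by omega, b3, ?_⟩,
          by simp only [y]; omega⟩
        simp only [y, show (x u).2.1 - (x u).1 = f u w by omega]
      · have hw' := mem_of_mem_erase hw
        rw [Function.update_of_ne h, h1 w hw' h]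
        have := a1 w hw'
        rw [col_erase hs hu huv hleaf f hw', if_neg h] at this
        exact this
    · rw [hc, hc]
      exact a2 a (mem_of_mem_erase ha) b (mem_of_mem_erase hb) h
    · rw [← Finset.sum_erase_add _ _ hv', Function.update_self,
        Finset.sum_congr rfl fun w hw => by rw [Function.update_of_ne (mem_erase.1 hw).1]]
      simp only [y]
      omega
  · rintro ⟨f, x, a1, a2, a3⟩
    obtain ⟨-, p, hp, r, hr, b1, b2, b3⟩ := (h2 _).1 (a1 v hv').1
    let f' : ℕ → ℕ → ℕ := fun a b => if a = u ∨ b = u then r.2.1 - r.1 else f a b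
    have hf' : ∀ w ∈ S.erase u, col (S.erase u) ad f' w = col (S.erase u) ad f w := by
      intro w hw
      refine Finset.sum_congr rfl fun b hb => ?_
      have := (mem_erase.1 (mem_filter.1 hb).1).1
      simp [f', this, (mem_erase.1 hw).1]
    let x' : ℕ → T3 := fun w => if w = u then r else if w = v then p else x w
    have hxu : x' u = r := by simp [x']
    have hxv : x' v = p := by simp [x', hne.symm]
    have hxw : ∀ w, w ≠ u → w ≠ v → x' w = x w := fun w c1 c2 => by simp [x', c1, c2]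
    have hc : ∀ w, w ≠ u → (x' w).2.1 = (x w).2.1 := by
      intro w c1
      by_cases h : w = v
      · subst h; rw [hxv, b3]
      · rw [hxw w c1 h]
    have e1 : f' u v = r.2.1 - r.1 := by simp [f']
    have e2 : f' v u = r.2.1 - r.1 := by simp [f']
    refine ⟨f', x', fun w hw => ?_, fun a ha b hb h => ?_, ?_⟩
    · by_cases c1 : w = u
      · subst c1
        rw [hxu, col_leaf hu hv huv hleaf, e1]
        exact ⟨hr, by omega⟩
      · have hw' : w ∈ S.erase u := mem_erase.2 ⟨c1, hw⟩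
        rw [col_erase hs hu huv hleaf f' hw, hf' w hw']
        by_cases c2 : w = v
        · subst c2
          have := (a1 w hv').2
          rw [b3] at this
          rw [hxv, if_pos rfl, e2]
          exact ⟨hp, by simp only at this; omega⟩
        · rw [hxw w c1 c2, if_neg c2, ← h1 w hw c2]
          exact a1 w hw'
    · by_cases c1 : a = u
      · subst c1
        obtain rfl := hleaf b hb h
        rw [e1, e2, hxu, hxv]
        exact ⟨by omega, rfl, b2⟩
      · by_cases c2 : b = u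
        · subst c2
          obtain rfl := hleaf a ha (hs _ _ h)
          rw [e1, e2, hxu, hxv]
          exact ⟨by omega, rfl, b2.symm⟩
        · rw [hc a c1, hc b c2]
          simpa [f', c1, c2] using a2 a (mem_erase.2 ⟨c1, ha⟩) b (mem_erase.2 ⟨c2, hb⟩) h
    · have hsum : ∑ w ∈ S.erase u, col (S.erase u) ad f' w =
          ∑ w ∈ S.erase u, col (S.erase u) ad f w := Finset.sum_congr rfl hf'
      rw [sum_col_erase hs hne hu hv huv hleaf, hsum, e1, e2,
        ← Finset.sum_erase_add _ _ hu, ← Finset.sum_erase_add _ _ hv', hxu, hxv,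
        Finset.sum_congr rfl fun w hw => by
          rw [hxw w (mem_erase.1 (mem_erase.1 hw).2).1 (mem_erase.1 hw).1]]
      rw [← Finset.sum_erase_add _ _ hv', b3] at a3
      simp only at a3
      omega

end step

theorem feas_final {S : Finset ℕ} {ad : ℕ → ℕ → Bool} {g : ℕ → T3 → Prop}
    (hno : ∀ u ∈ S, ∀ v ∈ S, ¬ ad u v = true) (μ : ℕ → ℕ)
    (hμ : ∀ w ∈ S, ∀ y, g w y → y.1 = y.2.1 →
      μ w ≤ y.2.2 ∧ ∃ y', g w y' ∧ y'.1 = y'.2.1 ∧ y'.2.2 = μ w)
    {t : ℕ} (h : Feas S ad g t) : ∑ w ∈ S, μ w ≤ t ∧ Feas S ad g (∑ w ∈ S, μ w) := by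
  have h0 : ∀ f, ∀ w ∈ S, col S ad f w = 0 := fun f w hw =>
    Finset.sum_eq_zero fun v hv => absurd (mem_filter.1 hv).2 (hno w hw v (mem_filter.1 hv).1)
  obtain ⟨f, x, a1, -, a3⟩ := h
  have b1 := fun w hw => hμ w hw _ (a1 w hw).1 (by rw [(a1 w hw).2, h0 f w hw]; rfl)
  have b2 : ∑ w ∈ S, μ w ≤ ∑ w ∈ S, (x w).2.2 := Finset.sum_le_sum fun w hw => (b1 w hw).1
  refine ⟨by omega, ?_⟩
  choose! x' c1 c2 c3 using fun w hw => (b1 w hw).2
  refine ⟨f, x', fun w hw => ⟨c1 w hw, by rw [h0 f w hw, c2 w hw]; rfl⟩,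
    fun a ha b hb h => absurd h (hno a ha b hb), ?_⟩
  rw [Finset.sum_congr rfl c3, Finset.sum_congr rfl (h0 f)]
  simp

end Pool.Agent.P.MP_ec274c_lc
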